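import Mathlib
import Pool.Agent.PnMn.Rankin
import Pool.Agent.PnMn.SumInv

set_option autoImplicit false

namespace Pool.Agent.Helper32.TPC

open Finset Pool.Agent.PnMn

open scoped Classical

/-- convexity of the exponential on [0, L]. -/
lemma exp_chord {η L t : ℝ} (hL : 0 < L) (ht0 : 0 ≤ t) (htL : t ≤ L) :
    Real.exp (η * t) ≤ 1 + (t / L) * (Real.exp (η * L) - 1) := by
  have ha : 0 ≤ 1 - t / L := by rw [sub_nonneg, div_le_one hL]; exact htL
  have hb : 0 ≤ t / L := by positivity
  have hconv := convexOn_exp.2 (Set.mem_univ (0 : ℝ)) (Set.mem_univ (η * L)) ha hb (by ring)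
  simp only [smul_eq_mul, mul_zero, zero_add, Real.exp_zero, mul_one] at hconv
  have h1 : t / L * (η * L) = η * t := by field_simp
  rw [h1] at hconv
  linarith

/-- Rankin bound: with `l` an upper bound for `log w`. -/
lemma rankin (x w : ℕ) (hw : 2 ≤ w) (l η C : ℝ) (hl : Real.log w ≤ l) (hl1 : 1 ≤ l)
    (hη0 : 0 ≤ η) (hη : η ≤ 1 / 4)
    (hC : ∑ p ∈ (Finset.Icc 1 w).filter Nat.Prime, (1 : ℝ) / p ≤ Real.log (Real.log w) + C)
    (hx : 1 ≤ x) :
    (((Finset.Ico 1 x).filter (fun n => ∀ p : ℕ, p.Prime → p ∣ n → p ≤ w)).card : ℝ)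
      ≤ Real.exp ((1 - η) * Real.log x
          + 5 / 2 * (Real.log (Real.log w) + C + 3 * Real.exp (η * l))) := by
  set D := (Finset.Ico 1 x).filter (fun n => ∀ p : ℕ, p.Prime → p ∣ n → p ≤ w) with hD
  set f : ℕ → ℝ := fun n => (n : ℝ) ^ (-(1 - η)) with hf
  have hr : ∀ p : ℕ, p.Prime → 0 ≤ f p ∧ f p < 1 := by
    intro p hp
    refine ⟨by positivity, ?_⟩
    exact Real.rpow_lt_one_of_one_lt_of_neg (by exact_mod_cast hp.one_lt) (by linarith)
  have hE := sum_le_euler f (fun n => by positivity) (by simp [hf])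
    (fun m n _ => by
      simp only [hf]; push_cast
      rw [Real.mul_rpow (by positivity) (by positivity)])
    f f hr
    (fun p hp j => by
      simp only [hf]
      push_cast
      rw [← Real.rpow_natCast, ← Real.rpow_natCast, ← Real.rpow_mul (by positivity),
        ← Real.rpow_mul (by positivity)]
      have hp0 : (0 : ℝ) < p := by exact_mod_cast hp.pos
      rw [← Real.rpow_add hp0]
      apply le_of_eq
      congr 1
      push_cast
      ring)
    (w + 1) D
    (fun d hd => by
      rw [hD, Finset.mem_filter, Finset.mem_Ico] at hd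
      exact ⟨by omega, fun p hp hpd => Nat.lt_succ_of_le (hd.2 p hp hpd)⟩)
  have hset : (w + 1).primesBelow = (Finset.Icc 1 w).filter Nat.Prime := by
    ext p
    simp only [Nat.mem_primesBelow, Finset.mem_filter, Finset.mem_Icc]
    constructor
    · rintro ⟨h, hp⟩
      exact ⟨⟨hp.one_le, by omega⟩, hp⟩
    · rintro ⟨⟨_, h⟩, hp⟩
      exact ⟨by omega, hp⟩
  rw [hset] at hE
  -- the product
  have hx0 : (0 : ℝ) < x := by exact_mod_cast hx
  have h2 : ∏ p ∈ (Finset.Icc 1 w).filter Nat.Prime, (1 + f p / (1 - f p))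
      ≤ Real.exp (∑ p ∈ (Finset.Icc 1 w).filter Nat.Prime, 5 / 2 * f p) := by
    rw [Real.exp_sum]
    refine Finset.prod_le_prod (fun p hp => ?_) (fun p hp => ?_)
    · have hp' := (Finset.mem_filter.1 hp).2
      have h3 := hr p hp'
      have : 0 ≤ f p / (1 - f p) := div_nonneg h3.1 (by linarith)
      linarith
    · have hp' := (Finset.mem_filter.1 hp).2
      have h3 := hr p hp'
      have h35 : f p ≤ 3 / 5 := by
        have hp2 : (2 : ℝ) ≤ p := by exact_mod_cast hp'.two_le
        calc f p ≤ (p : ℝ) ^ (-(3 / 4 : ℝ)) :=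
              Real.rpow_le_rpow_of_exponent_le (by linarith) (by linarith)
          _ ≤ (2 : ℝ) ^ (-(3 / 4 : ℝ)) :=
              Real.rpow_le_rpow_of_nonpos (by norm_num) hp2 (by norm_num)
          _ ≤ 3 / 5 := by
              have h4 : ((2 : ℝ) ^ (-(3 / 4 : ℝ))) ^ (4 : ℕ) = 1 / 8 := by
                rw [← Real.rpow_natCast, ← Real.rpow_mul (by norm_num)]
                norm_num
              by_contra hcon
              push Not at hcon
              have h5 : (3 / 5 : ℝ) ^ 4 < ((2 : ℝ) ^ (-(3 / 4 : ℝ))) ^ (4 : ℕ) :=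
                pow_lt_pow_left₀ hcon (by norm_num) (by norm_num)
              rw [h4] at h5
              norm_num at h5
      have h4 := Real.add_one_le_exp (5 / 2 * f p)
      have h5 : f p / (1 - f p) ≤ 5 / 2 * f p := by
        rw [div_le_iff₀ (by linarith)]
        nlinarith [h3.1]
      linarith
  have h3 : ∑ p ∈ (Finset.Icc 1 w).filter Nat.Prime, 5 / 2 * f p
      ≤ 5 / 2 * (Real.log (Real.log w) + C + 3 * Real.exp (η * l)) := by
    rw [← Finset.mul_sum]
    have h4 : ∑ p ∈ (Finset.Icc 1 w).filter Nat.Prime, f p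
        ≤ ∑ p ∈ (Finset.Icc 1 w).filter Nat.Prime,
          ((1 : ℝ) / p + (Real.exp (η * l) / l) * (Real.log p / p)) := by
      refine Finset.sum_le_sum (fun p hp => ?_)
      have hp' := (Finset.mem_filter.1 hp).2
      have hpw := (Finset.mem_Icc.1 (Finset.mem_filter.1 hp).1).2
      have hp0 : (0 : ℝ) < p := by exact_mod_cast hp'.pos
      have hlp0 : 0 ≤ Real.log p := Real.log_nonneg (by exact_mod_cast hp'.one_le)
      have hlp : Real.log p ≤ l :=
        (Real.log_le_log hp0 (by exact_mod_cast hpw)).trans hl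
      have h5 : f p = (1 / (p : ℝ)) * Real.exp (η * Real.log p) := by
        simp only [hf]
        rw [show -(1 - η) = (-1 : ℝ) + η by ring, Real.rpow_add hp0, Real.rpow_neg_one,
          Real.rpow_def_of_pos hp0, one_div, mul_comm (Real.log p) η]
      rw [h5]
      have h6 := exp_chord (η := η) (lt_of_lt_of_le one_pos hl1) hlp0 hlp
      have h7 : Real.exp (η * Real.log p) ≤ 1 + (Real.exp (η * l) / l) * Real.log p := by
        refine h6.trans ?_
        have : Real.log p / l * (Real.exp (η * l) - 1) ≤ Real.log p / l * Real.exp (η * l) :=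
          mul_le_mul_of_nonneg_left (by linarith) (by positivity)
        have h8 : Real.log p / l * Real.exp (η * l) = (Real.exp (η * l) / l) * Real.log p := by
          ring
        linarith
      calc (1 / (p : ℝ)) * Real.exp (η * Real.log p)
          ≤ (1 / (p : ℝ)) * (1 + (Real.exp (η * l) / l) * Real.log p) :=
            mul_le_mul_of_nonneg_left h7 (by positivity)
        _ = _ := by ring
    rw [Finset.sum_add_distrib, ← Finset.mul_sum] at h4
    have h5 := sum_log_div_le w (by omega)
    have h6 : Real.log w + Real.log 4 ≤ 3 * l := by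
      have : Real.log 4 < 2 := by
        rw [show (4 : ℝ) = 2 ^ 2 by norm_num, Real.log_pow]
        have := Real.log_two_lt_d9
        norm_num
        linarith
      linarith
    have h7 : (Real.exp (η * l) / l) *
        ∑ p ∈ (Finset.Icc 1 w).filter Nat.Prime, Real.log p / p ≤ 3 * Real.exp (η * l) := by
      calc (Real.exp (η * l) / l) * ∑ p ∈ (Finset.Icc 1 w).filter Nat.Prime, Real.log p / p
          ≤ (Real.exp (η * l) / l) * (3 * l) :=
            mul_le_mul_of_nonneg_left (h5.trans h6) (by positivity)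
        _ = 3 * Real.exp (η * l) := by
            have : l ≠ 0 := by linarith
            field_simp
    linarith
  have h4 : (D.card : ℝ) ≤ (x : ℝ) ^ (1 - η) * ∑ d ∈ D, f d := by
    rw [Finset.mul_sum, Finset.card_eq_sum_ones]
    push_cast
    refine Finset.sum_le_sum (fun n hn => ?_)
    rw [hD, Finset.mem_filter, Finset.mem_Ico] at hn
    have hn0 : (0 : ℝ) < n := by exact_mod_cast (by omega : 0 < n)
    have hnx : (n : ℝ) ≤ x := by exact_mod_cast (by omega : n ≤ x)
    simp only [hf]
    rw [Real.rpow_neg hn0.le]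
    rw [← div_eq_mul_inv, le_div_iff₀ (by positivity), one_mul]
    exact Real.rpow_le_rpow hn0.le hnx (by linarith)
  calc (D.card : ℝ) ≤ (x : ℝ) ^ (1 - η) * ∑ d ∈ D, f d := h4
    _ ≤ (x : ℝ) ^ (1 - η) * Real.exp (5 / 2 * (Real.log (Real.log w) + C
          + 3 * Real.exp (η * l))) := by
        refine mul_le_mul_of_nonneg_left ?_ (by positivity)
        exact hE.trans (h2.trans (Real.exp_le_exp.2 h3))
    _ = _ := by
        rw [Real.exp_add, Real.rpow_def_of_pos hx0, mul_comm (Real.log (x : ℝ)) (1 - η)]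

end Pool.Agent.Helper32.TPC
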