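import Mathlib
import Pool.Agent.helper32.TPC.Smooth
import Pool.Agent.PNT.Main

set_option autoImplicit false

namespace Pool.Agent.Helper32.TPC

open Finset Pool.Agent.PnMn

open scoped Classical

/-- The smooth numbers up to `x`. -/
lemma smooth_count : ∃ T : ℝ, ∀ x : ℕ, T ≤ Real.log (Real.log x) →
    (∀ w : ℕ, w = ⌊Real.exp (Real.log x * Real.log (Real.log (Real.log x))
        / (32 * Real.log (Real.log x)))⌋₊ →
      (((Finset.Ico 1 x).filter (fun n => ∀ p : ℕ, p.Prime → p ∣ n → p ≤ w)).card : ℝ)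
        ≤ x / (Real.log x) ^ 2) := by
  obtain ⟨C, hC⟩ := sumInvPrimes
  refine ⟨max 400 (5 / 2 * C), fun x hx w hw => ?_⟩
  set L := Real.log x with hL
  set t := Real.log L with ht
  set s := Real.log t with hs
  have ht400 : 400 ≤ t := le_trans (le_max_left _ _) hx
  have htC : 5 / 2 * C ≤ t := le_trans (le_max_right _ _) hx
  have ht0 : 0 < t := by linarith
  have hL0 : 0 < L := by
    by_contra hcon
    push Not at hcon
    have : x ≤ 1 := by
      by_contra h1
      push Not at h1
      have : 0 < L := Real.log_pos (by exact_mod_cast h1)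
      linarith
    have h2 : L = 0 := by
      interval_cases x <;> simp [hL]
    rw [ht, h2, Real.log_zero] at ht0
    exact lt_irrefl _ ht0
  have hLt : L = Real.exp t := (Real.exp_log hL0).symm
  have hx1 : 1 < x := by
    by_contra h1
    push Not at h1
    have h2 : L = 0 := by
      interval_cases x <;> simp [hL]
    linarith
  have hx0 : (0 : ℝ) < x := by exact_mod_cast (by omega : 0 < x)
  have hs1 : 1 ≤ s := by
    rw [hs, Real.le_log_iff_exp_le ht0]
    have := Real.exp_one_lt_d9
    linarith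
  set l := L * s / (32 * t) with hl
  set u := 32 * t / s with hu
  have hs0 : 0 < s := by linarith
  have hu0 : 0 < u := by positivity
  have hul : u * l = L := by
    rw [hu, hl]; field_simp
  -- the square root of t
  have hsq : Real.sqrt t ^ 2 = t := Real.sq_sqrt ht0.le
  have hsq20 : 20 ≤ Real.sqrt t := by
    rw [show (20 : ℝ) = Real.sqrt (20 ^ 2) by rw [Real.sqrt_sq]; norm_num]
    exact Real.sqrt_le_sqrt (by norm_num; linarith)
  have hs_sq : s ≤ 2 * Real.sqrt t := by
    have h1 : s = 2 * Real.log (Real.sqrt t) := by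
      rw [hs, Real.log_sqrt ht0.le]; ring
    have h2 : Real.log (Real.sqrt t) ≤ Real.sqrt t - 1 := Real.log_le_sub_one_of_pos (by linarith)
    linarith
  have hlogu : s / 2 ≤ Real.log u := by
    have h1 : Real.sqrt t ≤ u := by
      rw [hu, le_div_iff₀ hs0]
      nlinarith
    have h2 : Real.log (Real.sqrt t) = s / 2 := by rw [Real.log_sqrt ht0.le]
    rw [← h2]
    exact Real.log_le_log (by linarith) h1
  have hlogu2 : Real.log u ≤ 32 * t := by
    have h1 : u ≤ 32 * t := by
      rw [hu]
      exact div_le_self (by positivity) hs1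
    have h2 : Real.log u ≤ u - 1 := Real.log_le_sub_one_of_pos hu0
    linarith
  have hl64 : 64 * t ≤ l := by
    have h1 : t ^ 4 / 24 ≤ Real.exp t := by
      have := Real.pow_div_factorial_le_exp t ht0.le 4
      simpa [Nat.factorial] using this
    rw [hl, hLt, le_div_iff₀ (by positivity)]
    have ht2 : 49152 ≤ t ^ 2 := by nlinarith
    have h3 : 49152 * t ^ 2 ≤ t ^ 2 * t ^ 2 := mul_le_mul_of_nonneg_right ht2 (by positivity)
    have h2 : 64 * t * (32 * t) ≤ t ^ 4 / 24 := by
      have h4 : t ^ 4 = t ^ 2 * t ^ 2 := by ring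
      rw [h4]
      linarith
    nlinarith [Real.exp_pos t]
  have hl0 : 0 < l := by linarith
  have hw2 : 2 ≤ w := by
    rw [hw]
    apply Nat.le_floor
    have := Real.add_one_le_exp l
    push_cast
    linarith
  have hwl : Real.log w ≤ l := by
    have hw0 : (0 : ℝ) < w := by exact_mod_cast (by omega : 0 < w)
    rw [Real.log_le_iff_le_exp hw0, hw]
    exact Nat.floor_le (Real.exp_pos _).le
  set η := Real.log u / (2 * l) with hη
  have hlogu0 : 0 < Real.log u := by linarith
  have hη0 : 0 ≤ η := by positivity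
  have hη4 : η ≤ 1 / 4 := by
    rw [hη, div_le_iff₀ (by positivity)]
    linarith
  have hr := rankin x w hw2 l η C hwl (by linarith) hη0 hη4 (hC w hw2) (by omega)
  refine hr.trans ?_
  have hxexp : (x : ℝ) / L ^ 2 = Real.exp (L - 2 * t) := by
    rw [Real.exp_sub, hL, Real.exp_log hx0, ← hL]
    congr 1
    rw [two_mul, Real.exp_add, ← hLt]; ring
  rw [hxexp]
  apply Real.exp_le_exp.2
  have h1 : Real.log (Real.log w) ≤ t := by
    have hlw : 0 < Real.log w := Real.log_pos (by exact_mod_cast (by omega : 1 < w))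
    rw [ht]
    apply Real.log_le_log hlw
    refine hwl.trans ?_
    have : l ≤ u * l := by
      have : 1 ≤ u := by
        have h1 : Real.log u ≤ u - 1 := Real.log_le_sub_one_of_pos hu0
        linarith
      nlinarith
    linarith
  have h2 : Real.exp (η * l) = Real.sqrt u := by
    have h3 : η * l = Real.log (Real.sqrt u) := by
      rw [hη, Real.log_sqrt hu0.le]
      field_simp
    rw [h3, Real.exp_log (Real.sqrt_pos.2 hu0)]
  have h3 : Real.sqrt u ≤ 6 * Real.sqrt t := by
    rw [show (6 : ℝ) * Real.sqrt t = Real.sqrt (36 * t) by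
      rw [Real.sqrt_mul (by norm_num), show (36 : ℝ) = 6 ^ 2 by norm_num,
        Real.sqrt_sq (by norm_num)]]
    apply Real.sqrt_le_sqrt
    have h1 : u ≤ 32 * t := by
      rw [hu]
      exact div_le_self (by positivity) hs1
    linarith
  have h4 : η * L = u * Real.log u / 2 := by
    rw [← hul, hη]
    field_simp
  have h5 : 8 * t ≤ η * L := by
    rw [h4]
    have h6 : u * (s / 2) ≤ u * Real.log u := mul_le_mul_of_nonneg_left hlogu hu0.le
    have h7 : u * (s / 2) = 16 * t := by
      rw [hu]; field_simp; ring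
    linarith
  rw [h2]
  have h8 : Real.sqrt t * 20 ≤ t := by nlinarith
  nlinarith

/-- Primes in the upper half of `[1,x]`. -/
lemma half_primes : ∃ X : ℕ, ∀ x : ℕ, X ≤ x →
    (x : ℝ) / (4 * Real.log x) ≤ (((Finset.Ioc (x / 2) x).filter Nat.Prime).card : ℝ) := by
  have h := Pool.Agent.PNT.tendsto_primeCounting
  rw [Metric.tendsto_atTop] at h
  obtain ⟨N, hN⟩ := h (1 / 16) (by norm_num)
  have hlog : Filter.Tendsto (fun x : ℕ => Real.log x) Filter.atTop Filter.atTop :=
    Real.tendsto_log_atTop.comp tendsto_natCast_atTop_atTop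
  obtain ⟨X1, hX1⟩ := Filter.eventually_atTop.1 (hlog.eventually_ge_atTop 100)
  refine ⟨max X1 (max 4 (⌈2 * N⌉₊ + 4)), fun x hx => ?_⟩
  have hx1 : X1 ≤ x := le_trans (le_max_left _ _) hx
  have hx4 : 4 ≤ x := le_trans (le_trans (le_max_left _ _) (le_max_right _ _)) hx
  have hxN : ⌈2 * N⌉₊ + 4 ≤ x := le_trans (le_trans (le_max_right _ _) (le_max_right _ _)) hx
  have hL := hX1 x hx1
  have hxN' : 2 * N + 4 ≤ x := by
    have h1 : 2 * N ≤ ⌈2 * N⌉₊ := Nat.le_ceil _
    have h2 : ((⌈2 * N⌉₊ + 4 : ℕ) : ℝ) ≤ x := by exact_mod_cast hxN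
    push_cast at h2
    linarith
  have hx0 : (0 : ℝ) < x := by exact_mod_cast (by omega : 0 < x)
  have hN0 : N ≤ x := by
    rcases le_or_gt N 0 with h | h <;> linarith
  have ha := hN (x : ℝ) hN0
  have hb := hN ((x : ℝ) / 2) (by linarith)
  rw [Real.dist_eq, abs_lt] at ha hb
  have hfl : ⌊(x : ℝ) / 2⌋₊ = x / 2 := Nat.floor_div_eq_div x 2
  rw [Nat.floor_natCast] at ha
  rw [hfl] at hb
  set L := Real.log x with hLdef
  have hL2 : Real.log ((x : ℝ) / 2) = L - Real.log 2 := Real.log_div (by positivity) (by norm_num)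
  have hlog2 : Real.log 2 < 1 := by have := Real.log_two_lt_d9; linarith
  have hlog2' : 0 < Real.log 2 := Real.log_pos (by norm_num)
  rw [hL2] at hb
  have hcard : (((Finset.Ioc (x / 2) x).filter Nat.Prime).card : ℝ)
      = (Nat.primeCounting x : ℝ) - Nat.primeCounting (x / 2) := by
    have h1 : (Finset.Ioc (x / 2) x).filter Nat.Prime
        = (Finset.range (x + 1)).filter Nat.Prime \ (Finset.range (x / 2 + 1)).filter Nat.Prime := by
      ext p
      simp only [Finset.mem_filter, Finset.mem_Ioc, Finset.mem_sdiff, Finset.mem_range]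
      constructor
      · rintro ⟨⟨h1, h2⟩, h3⟩
        exact ⟨⟨by omega, h3⟩, fun h4 => by omega⟩
      · rintro ⟨⟨h1, h2⟩, h3⟩
        refine ⟨⟨?_, by omega⟩, h2⟩
        by_contra h4
        exact h3 ⟨by omega, h2⟩
    have h2 : (Finset.range (x / 2 + 1)).filter Nat.Prime ⊆ (Finset.range (x + 1)).filter Nat.Prime :=
      Finset.filter_subset_filter _ (Finset.range_subset_range.2 (by omega))
    rw [h1, Finset.card_sdiff_of_subset h2, Nat.cast_sub (Finset.card_le_card h2)]
    simp only [Nat.primeCounting, Nat.primeCounting', Nat.count_eq_card_filter_range]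
  rw [hcard]
  have h1 : 15 / 16 * (x / L) ≤ (Nat.primeCounting x : ℝ) := by
    have h3 : (15 : ℝ) / 16 < (Nat.primeCounting x : ℝ) * L / x := by linarith [ha.1]
    rw [lt_div_iff₀ hx0] at h3
    have hL0 : 0 < L := by linarith
    have h4 : 15 / 16 * ((x : ℝ) / L) = 15 / 16 * x / L := by ring
    rw [h4, div_le_iff₀ hL0]
    linarith
  have h2 : (Nat.primeCounting (x / 2) : ℝ) ≤ 11 / 16 * (x / L) := by
    have h3 : (Nat.primeCounting (x / 2) : ℝ) * (L - Real.log 2) / (x / 2) < 17 / 16 := by
      linarith [hb.2]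
    rw [div_lt_iff₀ (by positivity)] at h3
    have hL0 : 0 < L := by linarith
    have h4 : 11 / 16 * ((x : ℝ) / L) = 11 / 16 * x / L := by ring
    rw [h4, le_div_iff₀ hL0]
    have hp0 : (0 : ℝ) ≤ Nat.primeCounting (x / 2) := by positivity
    have h5 : (Nat.primeCounting (x / 2) : ℝ) * (99 / 100 * L) ≤ 17 / 32 * x := by
      have h6 : 99 / 100 * L ≤ L - Real.log 2 := by linarith
      have h7 := mul_le_mul_of_nonneg_left h6 hp0
      linarith
    nlinarith
  have h3 : (x : ℝ) / (4 * L) = 1 / 4 * (x / L) := by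
    have : L ≠ 0 := by linarith
    field_simp
  rw [h3]
  linarith

end Pool.Agent.Helper32.TPC
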