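import Mathlib

set_option autoImplicit false

namespace Pool.Agent.Helper32.TPC

open Finset

/-- Greedy choice of residue classes for a finite set of primes and a weight. -/
lemma greedy (P : Finset ℕ) (hP : ∀ p ∈ P, p.Prime) (S : Finset ℕ) (W : ℕ → ℝ)
    (hW : ∀ n, 0 ≤ W n) :
    ∃ a : ℕ → ℕ, ∑ n ∈ S.filter (fun n => ∀ p ∈ P, ¬ Nat.ModEq p n (a p)), W n
      ≤ (∏ p ∈ P, (1 - 1 / (p : ℝ))) * ∑ n ∈ S, W n := by
  classical
  induction P using Finset.induction_on with
  | empty => exact ⟨fun _ => 0, by simp⟩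
  | insert q P hq ih =>
    obtain ⟨a, ha⟩ := ih (fun p hp => hP p (Finset.mem_insert_of_mem hp))
    have hqp : q.Prime := hP q (Finset.mem_insert_self q P)
    have hq0 : (0 : ℝ) < q := by exact_mod_cast hqp.pos
    set R := S.filter (fun n => ∀ p ∈ P, ¬ Nat.ModEq p n (a p)) with hR
    have hsum : ∑ r ∈ Finset.range q, ∑ n ∈ R.filter (fun n => n % q = r), W n
        = ∑ n ∈ R, W n := by
      apply Finset.sum_fiberwise_of_maps_to
      intro n _
      exact Finset.mem_range.2 (Nat.mod_lt _ hqp.pos)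
    obtain ⟨r, hr, hr2⟩ : ∃ r ∈ Finset.range q, (1 / (q : ℝ)) * ∑ n ∈ R, W n
        ≤ ∑ n ∈ R.filter (fun n => n % q = r), W n := by
      by_contra hcon
      push Not at hcon
      have h1 : ∑ r ∈ Finset.range q, ∑ n ∈ R.filter (fun n => n % q = r), W n
          < ∑ r ∈ Finset.range q, (1 / (q : ℝ)) * ∑ n ∈ R, W n :=
        Finset.sum_lt_sum_of_nonempty ⟨0, Finset.mem_range.2 hqp.pos⟩ hcon
      rw [hsum, Finset.sum_const, Finset.card_range, nsmul_eq_mul] at h1
      have h2 : (q : ℝ) * ((1 / (q : ℝ)) * ∑ n ∈ R, W n) = ∑ n ∈ R, W n := by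
        field_simp
      linarith
    refine ⟨Function.update a q r, ?_⟩
    have hset : S.filter (fun n => ∀ p ∈ insert q P, ¬ Nat.ModEq p n (Function.update a q r p))
        = R.filter (fun n => ¬ n % q = r) := by
      ext n
      simp only [hR, Finset.mem_filter, Finset.mem_insert, forall_eq_or_imp]
      have hrq : r % q = r := Nat.mod_eq_of_lt (Finset.mem_range.1 hr)
      constructor
      · rintro ⟨h1, h2, h3⟩
        refine ⟨⟨h1, fun p hp => ?_⟩, fun h4 => ?_⟩
        · have := h3 p hp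
          rwa [Function.update_of_ne (by rintro rfl; exact hq hp)] at this
        · apply h2
          rw [Function.update_self]
          show n % q = r % q
          rw [hrq, h4]
      · rintro ⟨⟨h1, h2⟩, h3⟩
        refine ⟨h1, fun h4 => h3 ?_, fun p hp => ?_⟩
        · rw [Function.update_self] at h4
          have h5 : n % q = r % q := h4
          rw [h5, hrq]
        · rw [Function.update_of_ne (by rintro rfl; exact hq hp)]
          exact h2 p hp
    rw [hset, Finset.prod_insert hq]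
    have hsplit : ∑ n ∈ R.filter (fun n => n % q = r), W n
        + ∑ n ∈ R.filter (fun n => ¬ n % q = r), W n = ∑ n ∈ R, W n :=
      Finset.sum_filter_add_sum_filter_not R _ _
    have h3 : ∑ n ∈ R.filter (fun n => ¬ n % q = r), W n ≤ (1 - 1 / (q : ℝ)) * ∑ n ∈ R, W n := by
      linarith
    have hq1 : 0 ≤ 1 - 1 / (q : ℝ) := by
      have : (1 : ℝ) ≤ q := by exact_mod_cast hqp.one_le
      rw [sub_nonneg, div_le_one hq0]
      exact this
    calc ∑ n ∈ R.filter (fun n => ¬ n % q = r), W n ≤ (1 - 1 / (q : ℝ)) * ∑ n ∈ R, W n := h3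
      _ ≤ (1 - 1 / (q : ℝ)) * ((∏ p ∈ P, (1 - 1 / (p : ℝ))) * ∑ n ∈ S, W n) :=
        mul_le_mul_of_nonneg_left ha hq1
      _ = _ := by ring

/-- Assigning distinct primes to single numbers. -/
lemma singles (Q T : Finset ℕ) (h : T.card ≤ Q.card) :
    ∃ (Q' : Finset ℕ) (b : ℕ → ℕ), Q' ⊆ Q ∧ Q'.card = T.card ∧ ∀ n ∈ T, ∃ p ∈ Q', b p = n := by
  classical
  obtain ⟨Q', hQ', hc⟩ := Finset.exists_subset_card_eq h
  obtain ⟨e⟩ : Nonempty (Q' ≃ T) := ⟨Finset.equivOfCardEq hc⟩
  refine ⟨Q', fun p => if hp : p ∈ Q' then (e ⟨p, hp⟩ : ℕ) else 0, hQ', hc, fun n hn => ?_⟩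
  refine ⟨(e.symm ⟨n, hn⟩ : Q'), (e.symm ⟨n, hn⟩).2, ?_⟩
  simp

end Pool.Agent.Helper32.TPC
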